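import Pool.Agent.helper4.QS.Spec

/-! # Project qs, module EV: evaluation of the block states -/

open scoped BigOperators ComplexOrder ComplexConjugate Topology

namespace Pool.Agent.QS

open Pool.Agent.helper86.CM Filter

noncomputable section

theorem EV_phase {Γ : Type} [AddCommGroup Γ] {h : Γ → Γ → ℝ} (hb : Bil h) (X U v : Γ) :
    -(h X (v + U)) - h (X - U) (v + U) - h X (X - U) = h U v + (-(h X U) - 2 * h X v) := by
  have e1 : h (X - U) (v + U) = h X (v + U) - h U (v + U) := by
    rw [sub_eq_add_neg, hb.addl, hb.negl]
    ring
  have e2 : h X (X - U) = h X X - h X U := by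
    rw [sub_eq_add_neg, hb.addr, hb.negr]
    ring
  rw [e1, e2, hb.addr, hb.addr, hb.self, hb.self]
  ring

theorem EV (hSUPP : SUPP_stmt) : EV_stmt := by
  classical
  intro Γ P _ _ h hb ι S G E0 Z hZ hE0 D hD J huniq u hu
  have key : ∀ j, j ≤ J → iterE h ι S G E0 j (∑ i ∈ Finset.range j, ι i (u i)) =
      ∏ l ∈ Finset.range j, fac h (ι l) S G (u l) (∑ i ∈ Finset.range l, ι i (u i)) := by
    intro j
    induction j with
    | zero =>
      intro _
      simp [iterE, hE0]
    | succ j ih =>
      intro hj
      have hjJ : j < J := hj
      set v := ∑ i ∈ Finset.range j, ι i (u i) with hv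
      -- vanishing
      have hvan : ∀ x ∈ S, ∀ y ∈ S, u j + y - x ≠ 0 →
          iterE h ι S G E0 j (v + ι j (u j) + ι j y - ι j x) = 0 := by
        intro x hx y hy hne
        by_contra hnz
        obtain ⟨g, hg, hgZ⟩ := hSUPP Γ P h ι S G E0 Z hZ j _ hnz
        set w := u j + y - x with hw
        have hw' : v + ι j (u j) + ι j y - ι j x = v + ι j w := by
          rw [hw, map_sub, map_add]
          abel
        rw [hw'] at hgZ
        let g' : ℕ → P := fun i => if i < j then u i - g i else if i = j then w else 0
        have h1 : ∀ i < J, g' i ∈ D := by
          intro i hi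
          by_cases h2 : i < j
          · obtain ⟨x', hx', y', hy', he⟩ := hg i h2
            have h3 : g' i = u i + y' - x' := by
              simp only [g', if_pos h2, he]
              abel
            rw [h3]
            exact hu i hi x' hx' y' hy'
          · by_cases h3 : i = j
            · have h4 : g' i = w := by
                simp only [g', if_neg h2, if_pos h3]
              rw [h4]
              exact hu j hjJ x hx y hy
            · have h4 : g' i = 0 := by
                simp only [g', if_neg h2, if_neg h3]
              rw [h4]
              exact hD
        have h2 : ∑ i ∈ Finset.range J, ι i (g' i) = v + ι j w - ∑ i ∈ Finset.range j, ι i (g i) := by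
          have h3 : ∑ i ∈ Finset.range J, ι i (g' i) = ∑ i ∈ Finset.range (j + 1), ι i (g' i) := by
            symm
            apply Finset.sum_subset (Finset.range_mono hj)
            intro i _ hi
            rw [Finset.mem_range] at hi
            have h4 : g' i = 0 := by
              simp only [g', if_neg (show ¬ i < j by omega), if_neg (show ¬ i = j by omega)]
            rw [h4, map_zero]
          rw [h3, Finset.sum_range_succ]
          have h5 : ι j (g' j) = ι j w := by
            simp only [g', lt_irrefl, if_false, if_true]
          have h6 : ∑ i ∈ Finset.range j, ι i (g' i) = v - ∑ i ∈ Finset.range j, ι i (g i) := by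
            rw [hv, ← Finset.sum_sub_distrib]
            refine Finset.sum_congr rfl fun i hi => ?_
            rw [Finset.mem_range] at hi
            simp only [g', if_pos hi, map_sub]
          rw [h5, h6]
          abel
        have h3 := huniq g' h1 (by rw [h2]; exact hgZ) j hjJ
        apply hne
        have h4 : g' j = w := by
          simp only [g', lt_irrefl, if_false, if_true]
        rw [← h4, h3]
      rw [Finset.sum_range_succ, ← hv, Finset.prod_range_succ, ← ih (by omega)]
      show stepE h (ι j) S G (iterE h ι S G E0 j) (v + ι j (u j)) = _
      unfold stepE
      have hinner : ∀ x ∈ S, ∑ y ∈ S, G x y * ee (-(h (ι j x) (v + ι j (u j))) -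
            h (ι j y) (v + ι j (u j)) - h (ι j x) (ι j y)) *
            iterE h ι S G E0 j (v + ι j (u j) + ι j y - ι j x) =
          iterE h ι S G E0 j v * (ee (h (ι j (u j)) v) * (if x - u j ∈ S then
            G x (x - u j) * ee (-(h (ι j x) (ι j (u j))) - 2 * h (ι j x) v) else 0)) := by
        intro x hx
        by_cases hxu : x - u j ∈ S
        · rw [Finset.sum_eq_single (x - u j), if_pos hxu]
          · have e1 : ι j (x - u j) = ι j x - ι j (u j) := map_sub _ _ _
            have e2 : v + ι j (u j) + (ι j x - ι j (u j)) - ι j x = v := by abel
            rw [e1, e2, EV_phase hb, ee_add]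
            ring
          · intro y hy hne
            rw [hvan x hx y hy ?_, mul_zero]
            intro h0
            apply hne
            have : y = x - u j := by
              have h1 : y = (u j + y - x) + (x - u j) := by abel
              rw [h1, h0, zero_add]
            exact this
          · intro hn
            exact absurd hxu hn
        · rw [if_neg hxu, mul_zero, mul_zero]
          refine Finset.sum_eq_zero fun y hy => ?_
          rw [hvan x hx y hy ?_, mul_zero]
          intro h0
          apply hxu
          have h1 : x - u j = y := by
            have h1 : y = (u j + y - x) + (x - u j) := by abel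
            rw [h1, h0, zero_add]
          rw [h1]
          exact hy
      rw [Finset.sum_congr rfl hinner, ← Finset.mul_sum, ← Finset.mul_sum]
      unfold fac
      congr 1
  exact key J le_rfl

end

end Pool.Agent.QS
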