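import Pool.Agent.helper4.QS.Spec

/-! # Project qs, module EX1: one site -/

open scoped BigOperators ComplexOrder ComplexConjugate Topology

namespace Pool.Agent.QS

open Pool.Agent.helper86.CM Filter

noncomputable section

theorem EX1_Icc (f : ℕ → ℂ) (i J : ℕ) :
    ∏ j ∈ Finset.Ico (i + 1) J, f (j - i) = ∏ d ∈ Finset.Icc 1 (J - 1 - i), f d := by
  have h1 : Finset.Icc 1 (J - 1 - i) = Finset.Ico 1 (J - i) := by
    ext d
    simp only [Finset.mem_Icc, Finset.mem_Ico]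
    omega
  rw [h1, Finset.prod_Ico_eq_prod_range, Finset.prod_Ico_eq_prod_range,
    show J - (i + 1) = J - i - 1 by omega]
  refine Finset.prod_congr rfl fun d _ => ?_
  congr 1
  omega

theorem EX1 (hEXE : EXE_stmt) : EX1_stmt := by
  intro B t hB b hb s J i hs hi
  let γ : ℕ → ℤ := fun l => if l = i then 1 else 0
  have hγ : ∀ l, |γ l| ≤ 1 := by
    intro l
    by_cases h : l = i
    · simp [γ, h]
    · simp [γ, h]
  have h := hEXE B t hB b hb s J hs γ hγ
  have e1 : ∑ l ∈ Finset.range J, siteI B s l ((γ l • b, 0) : PP) = (pw B ((s * i : ℕ) : ℤ) b, 0) := by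
    rw [Finset.sum_eq_single_of_mem i (Finset.mem_range.2 hi)]
    · rw [siteI_apply]
      simp [γ]
    · intro l _ hl
      have : γ l = 0 := if_neg hl
      rw [this, zero_smul]
      exact map_zero _
  rw [e1] at h
  rw [h]
  have hsum1 : ∀ j ≤ i, ∑ l ∈ Finset.range j, (γ l : ℝ) * ((lam t)⁻¹) ^ (s * (j - l)) = 0 := by
    intro j hj
    refine Finset.sum_eq_zero fun l hl => ?_
    rw [Finset.mem_range] at hl
    have : γ l = 0 := if_neg (by omega)
    rw [this]
    simp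
  have hsum2 : ∀ j, i < j → ∑ l ∈ Finset.range j, (γ l : ℝ) * ((lam t)⁻¹) ^ (s * (j - l)) =
      ((lam t)⁻¹) ^ (s * (j - i)) := by
    intro j hj
    rw [Finset.sum_eq_single_of_mem i (Finset.mem_range.2 hj)]
    · have : γ i = 1 := if_pos rfl
      rw [this]
      simp
    · intro l _ hl
      have : γ l = 0 := if_neg hl
      rw [this]
      simp
  rw [← Finset.prod_range_mul_prod_Ico _ (show i + 1 ≤ J from hi), Finset.prod_range_succ]
  have p1 : ∏ j ∈ Finset.range i, (if γ j = 0 then ((3 / 4 + 1 / 4 * Real.cos (2 * Real.pi *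
      (omega b (B b) : ℝ) * ∑ i ∈ Finset.range j, (γ i : ℝ) * ((lam t)⁻¹) ^ (s * (j - i))) : ℝ) : ℂ)
      else 1 / 2) = 1 := by
    refine Finset.prod_eq_one fun j hj => ?_
    rw [Finset.mem_range] at hj
    have : γ j = 0 := if_neg (by omega)
    rw [if_pos this, hsum1 j hj.le, mul_zero, Real.cos_zero]
    norm_num
  have p2 : (if γ i = 0 then ((3 / 4 + 1 / 4 * Real.cos (2 * Real.pi *
      (omega b (B b) : ℝ) * ∑ l ∈ Finset.range i, (γ l : ℝ) * ((lam t)⁻¹) ^ (s * (i - l))) : ℝ) : ℂ)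
      else 1 / 2) = 1 / 2 := by
    have : γ i = 1 := if_pos rfl
    rw [if_neg (by rw [this]; exact one_ne_zero)]
  have p3 : ∏ j ∈ Finset.Ico (i + 1) J, (if γ j = 0 then ((3 / 4 + 1 / 4 * Real.cos (2 * Real.pi *
      (omega b (B b) : ℝ) * ∑ i ∈ Finset.range j, (γ i : ℝ) * ((lam t)⁻¹) ^ (s * (j - i))) : ℝ) : ℂ)
      else 1 / 2) = ∏ j ∈ Finset.Ico (i + 1) J, ((kap (omega b (B b)) ((lam t)⁻¹) s (j - i) : ℝ) : ℂ) := by
    refine Finset.prod_congr rfl fun j hj => ?_
    rw [Finset.mem_Ico] at hj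
    have : γ j = 0 := if_neg (by omega)
    rw [if_pos this, hsum2 j (by omega)]
    rfl
  rw [p1, p2, p3, EX1_Icc (fun d => ((kap (omega b (B b)) ((lam t)⁻¹) s d : ℝ) : ℂ)) i J]
  push_cast
  ring

end

end Pool.Agent.QS
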