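import Pool.Agent.helper4.QS.Spec

/-! # Project qs, module EXE: evaluation of the example -/

open scoped BigOperators ComplexOrder ComplexConjugate Topology

namespace Pool.Agent.QS

open Pool.Agent.helper86.CM Filter

noncomputable section

/-- `β(n, ·)` as an additive map. -/
def EXE_bh (B : Lat 1 ≃ₗ[ℤ] Lat 1) (t : ℤ) (n : Lat 1) : Lat 1 →+ ℝ where
  toFun := beta B t n
  map_zero' := by simp [beta, omega_zero_right]
  map_add' x y := by
    simp only [beta, map_add, omega_add_right]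
    push_cast
    ring

theorem EXE_blk {b : Lat 1} {x : PP} (hx : x ∈ blk b) :
    ∃ c c' : ℤ, |c| ≤ 1 ∧ |c'| ≤ 1 ∧ x = (c • b, c' • b) := by
  simp only [blk, Finset.mem_insert, Finset.mem_singleton] at hx
  rcases hx with h | h | h | h | h
  · exact ⟨0, 0, by simp, by simp, by rw [h, zero_smul]; rfl⟩
  · exact ⟨1, 0, by simp, by simp, by rw [h]; simp⟩
  · exact ⟨-1, 0, by simp, by simp, by rw [h]; simp⟩
  · exact ⟨0, 1, by simp, by simp, by rw [h]; simp⟩
  · exact ⟨0, -1, by simp, by simp, by rw [h]; simp⟩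

/-- Uniqueness along the sites. -/
theorem EXE_uniq (hBET : BET_stmt) (hLUL : LUL_stmt) (hLAC3 : LAC3_stmt) {B : Lat 1 ≃ₗ[ℤ] Lat 1} {t : ℤ}
    (hB : Cat B t) {b : Lat 1} (hb : b ≠ 0) {s J : ℕ} (hs : 2 ≤ s) (c : ℕ → ℤ) (hc : ∀ j < J, |c j| ≤ 3)
    (h : ∑ j ∈ Finset.range J, pw B ((s * j : ℕ) : ℤ) (c j • b) = 0) : ∀ j < J, c j = 0 := by
  obtain ⟨h1, -, h3, h4⟩ := hBET B t hB
  have ht4 : 4 ≤ t := by
    obtain ⟨k, hk⟩ := hB.ev
    have := hB.lt
    omega
  have hlam : 37 / 10 < lam t := ((hLUL t hB.lt).1.2.2) ht4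
  have hq : beta B t b b ≠ 0 := by
    rw [h3 b]
    exact_mod_cast h4 b hb
  have e1 : (∑ j ∈ Finset.range J, (c j : ℝ) * (lam t) ^ (s * j)) * beta B t b b = 0 := by
    have h5 : EXE_bh B t b (∑ j ∈ Finset.range J, pw B ((s * j : ℕ) : ℤ) (c j • b)) = 0 := by
      rw [h, map_zero]
    rw [map_sum] at h5
    rw [← h5, Finset.sum_mul]
    refine Finset.sum_congr rfl fun j _ => ?_
    rw [pw_smul, map_zsmul]
    have h6 : EXE_bh B t b (pw B ((s * j : ℕ) : ℤ) b) = (lam t) ^ ((s * j : ℕ) : ℤ) * beta B t b b :=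
      h1 _ _ _
    rw [h6, zpow_natCast, zsmul_eq_mul]
    ring
  have e2 : ∑ j ∈ Finset.range J, (c j : ℝ) * (lam t) ^ (s * j) = 0 := by
    rcases mul_eq_zero.1 e1 with h5 | h5
    · exact h5
    · exact absurd h5 hq
  exact hLAC3 (lam t) hlam.le s J hs c hc e2

theorem EXE (hEV : EV_stmt) (hEXF : EXF_stmt) (hBET : BET_stmt) (hLUL : LUL_stmt) (hLAC3 : LAC3_stmt) :
    EXE_stmt := by
  intro B t hB b hb s J hs γ hγ
  let D : Set PP := {x | ∃ c c' : ℤ, |c| ≤ 3 ∧ |c'| ≤ 3 ∧ x = (c • b, c' • b)}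
  have hE := hEV PP PP (hh B t) (bil_hh B t) (siteI B s) (blk b) GX E00 ⊥
    (fun z hz => by
      have hz' : z ≠ 0 := fun h => hz (by rw [h]; exact zero_mem _)
      unfold E00
      rw [if_neg hz'])
    (by unfold E00; rw [if_pos rfl]) D ⟨0, 0, by simp, by simp, by rw [zero_smul]; rfl⟩ J
    (by
      intro g hg hsum
      rw [AddSubgroup.mem_bot] at hsum
      choose! c c' hc hc' hgc using hg
      have h1 : ∑ j ∈ Finset.range J, pw B ((s * j : ℕ) : ℤ) (c j • b) = 0 := by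
        have := congrArg Prod.fst hsum
        rw [Prod.fst_sum] at this
        rw [← Prod.fst_zero (M := Lat 1) (N := Lat 1), ← this]
        refine Finset.sum_congr rfl fun j hj => ?_
        rw [siteI_apply, hgc j (Finset.mem_range.1 hj)]
      have h2 : ∑ j ∈ Finset.range J, pw B ((s * j : ℕ) : ℤ) (c' j • b) = 0 := by
        have := congrArg Prod.snd hsum
        rw [Prod.snd_sum] at this
        rw [← Prod.snd_zero (M := Lat 1) (N := Lat 1), ← this]
        refine Finset.sum_congr rfl fun j hj => ?_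
        rw [siteI_apply, hgc j (Finset.mem_range.1 hj)]
      intro j hj
      rw [hgc j hj, EXE_uniq hBET hLUL hLAC3 hB hb hs c hc h1 j hj,
        EXE_uniq hBET hLUL hLAC3 hB hb hs c' hc' h2 j hj]
      simp)
    (fun j => (γ j • b, 0))
    (by
      intro j _ x hx y hy
      obtain ⟨c1, c1', h1, h1', rfl⟩ := EXE_blk hx
      obtain ⟨c2, c2', h2, h2', rfl⟩ := EXE_blk hy
      refine ⟨γ j + c2 - c1, c2' - c1', ?_, ?_, ?_⟩
      · have := hγ j
        rw [abs_le] at *
        omega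
      · rw [abs_le] at *
        omega
      · ext1
        · simp only [Prod.fst_sub, Prod.fst_add]
          rw [sub_smul, add_smul]
        · simp only [Prod.snd_sub, Prod.snd_add]
          rw [sub_smul, zero_add])
  unfold EX0
  rw [hE]
  refine Finset.prod_congr rfl fun j _ => ?_
  exact hEXF B t hB b hb s j γ hγ

end

end Pool.Agent.QS
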